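import Pool.Agent.H212.MB.All

/-!
# The reduced boundary of the space of matings with a Blaschke product does not depend on the
Blaschke product

Q1 of MP_c3607d_an has a positive answer: for every `n > 1` and every `A` the map
`F : B(z ^ n) → B(A)`, `f(z ^ n, B) ↦ f(A, B)`, extends to a homeomorphism from `∂(z ^ n)` onto
`∂(A)`; the two maps together form a homeomorphism from `B(z ^ n) ⊔ ∂(z ^ n)` onto `B(A) ⊔ ∂(A)`.
-/

namespace Pool.Agent.Results.MP_c3607d_an.ReducedBoundary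

open Pool.Agent.H212.MB

theorem result : ∀ (n : ℕ), 1 < n → ∀ A : Blaschke n,
    (∀ B : Blaschke n, ∃! f : RMap n, IsMating A B f) ∧ Equivalence (bdRel A) ∧
    Equivalence (clRel A) ∧ IsCompact (closure (BB A)) ∧
    ∃ (F : BB (zn n) ≃ₜ BB A) (Φ : BdQ (zn n) ≃ₜ BdQ A) (Ψ : ClQ (zn n) ≃ₜ ClQ A),
      (∀ (g : BB (zn n)) (B : Blaschke n), IsMating (zn n) B g → IsMating A B (F g)) ∧
      (∀ g : BB (zn n), Ψ (ofB (zn n) g) = ofB A (F g)) ∧
      ∀ (g : bd (zn n)) (f : bd A), Φ (Quot.mk _ g) = Quot.mk _ f → Ψ (ofBd (zn n) g) = ofBd A f :=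
  final

end Pool.Agent.Results.MP_c3607d_an.ReducedBoundary
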